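import Pool.Agent.Helper58.QD.Stub

/-!
# QD, block E: all small sets are given by models, by invariance under permutations
-/

set_option autoImplicit false

namespace Pool.Agent.Helper38.QD

open FirstOrder FirstOrder.Language Pool.Agent.Helper20.Spectra Pool.Agent.Helper58.QD

variable {S : Type} {ar : S → ℕ}

theorem isMod_equiv (χ : (RelLang S ar).Sentence) {M N : Type} (e : M ≃ N) (R : Interp S ar M) :
    IsMod χ R ↔ IsMod χ (fun s w => R s (e.symm ∘ w)) := by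
  unfold IsMod
  let _ := mkS R
  let _ := mkS (fun s (w : Fin (ar s) → N) => R s (e.symm ∘ w))
  let E : M ≃[RelLang S ar] N :=
    { e with
      map_fun' := fun f => Empty.elim f
      map_rel' := by
        intro n r x
        show R r.1 _ ↔ R r.1 _
        have : (e.symm ∘ fun i => (e ∘ x) (Fin.cast r.2 i)) = fun i => x (Fin.cast r.2 i) := by
          funext i
          simp
        exact Iff.of_eq (congrArg _ this) }
  exact StrongHomClass.realize_sentence E χ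

theorem isMod_perm {χ : (RelLang S ar).Sentence} {M : Type} {R : Interp S ar M} (h : IsMod χ R)
    (π : Equiv.Perm M) : IsMod χ (fun s w => R s (π ∘ w)) :=
  (isMod_equiv χ π.symm R).1 h

theorem XJ_perm {M : Type} [DecidableEq M] {k : ℕ} (J : Finset (Fin k)) (R1 R2 : (Fin k → M) → Prop)
    (a1 a2 : Fin k → M) (p x : M) (σ : Equiv.Perm M) :
    XJ J (fun w => R1 (σ.symm ∘ w)) (fun w => R2 (σ.symm ∘ w)) (σ ∘ a1) (σ ∘ a2) (σ p) (σ x) ↔
      XJ J R1 R2 a1 a2 p x := by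
  have e1 : ∀ (a t : Fin k → M), σ.symm ∘ ov J (σ ∘ a) (Equiv.swap (σ x) (σ p) ∘ (σ ∘ t)) =
      ov J a (Equiv.swap x p ∘ t) := by
    intro a t
    funext i
    by_cases h : i ∈ J
    · simp [ov, h]
    · simp [ov, h, Equiv.swap_apply_apply]
  have e2 : ∀ (a t : Fin k → M), σ.symm ∘ ov J (σ ∘ a) (σ ∘ t) = ov J a t := by
    intro a t
    funext i
    by_cases h : i ∈ J
    · simp [ov, h]
    · simp [ov, h]
  constructor
  · intro h t
    have h1 := h (σ ∘ t)
    beta_reduce at h1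
    rw [e1, e1, e2, e2] at h1
    exact h1
  · intro h t
    obtain ⟨t', rfl⟩ : ∃ t', t = σ ∘ t' := ⟨σ.symm ∘ t, by funext i; simp⟩
    beta_reduce
    rw [e1, e1, e2, e2]
    exact h t'

theorem dec1_perm {χ : (RelLang S ar).Sentence} {n : ℕ} {X X' : Finset (Fin n)} (h : Dec1 χ X)
    (σ : Equiv.Perm (Fin n)) (hX : ∀ x, σ x ∈ X' ↔ x ∈ X) : Dec1 χ X' := by
  obtain ⟨s, J, R1, R2, a1, a2, p, h1, h2, h3⟩ := h
  refine ⟨s, J, fun s w => R1 s (σ.symm ∘ w), fun s w => R2 s (σ.symm ∘ w), σ ∘ a1, σ ∘ a2, σ p,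
    (isMod_equiv χ σ R1).1 h1, (isMod_equiv χ σ R2).1 h2, fun x => ?_⟩
  obtain ⟨y, rfl⟩ := σ.surjective x
  rw [hX, h3]
  exact (XJ_perm J (R1 s) (R2 s) a1 a2 p y σ).symm

theorem dec_perm {χ : (RelLang S ar).Sentence} {n : ℕ} {X X' : Finset (Fin n)} (h : Dec χ X)
    (σ : Equiv.Perm (Fin n)) (hX : ∀ x, σ x ∈ X' ↔ x ∈ X) : Dec χ X' := by
  obtain ⟨A, B, hA, hB, h3⟩ := h
  have hm : ∀ (C : Finset (Fin n)) (x : Fin n), σ x ∈ C.map σ.toEmbedding ↔ x ∈ C := by
    intro C x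
    rw [Finset.mem_map_equiv, Equiv.symm_apply_apply]
  refine ⟨A.map σ.toEmbedding, B.map σ.toEmbedding, dec1_perm hA σ (hm A), dec1_perm hB σ (hm B), fun x => ?_⟩
  obtain ⟨y, rfl⟩ := σ.surjective x
  rw [hX, h3, hm, hm]

theorem perm_of_card {n : ℕ} {A B : Finset (Fin n)} (h : A.card = B.card) :
    ∃ σ : Equiv.Perm (Fin n), ∀ x, σ x ∈ B ↔ x ∈ A := by
  have e : {x // x ∈ A} ≃ {x // x ∈ B} := Finset.equivOfCardEq h
  refine ⟨e.extendSubtype, fun x => ?_⟩
  constructor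
  · intro hx
    by_contra hc
    exact e.extendSubtype_not_mem x hc hx
  · intro hx
    exact e.extendSubtype_mem x hx

theorem card_iniS {n l : ℕ} (h : l ≤ n) : (iniS n l).card = l := by
  have e : iniS n l = (Finset.univ : Finset (Fin l)).map (Fin.castLEEmb h) := by
    ext x
    rw [iniS, Finset.mem_filter, Finset.mem_map]
    constructor
    · rintro ⟨_, hx⟩
      exact ⟨⟨x, hx⟩, Finset.mem_univ _, by ext; rfl⟩
    · rintro ⟨y, _, rfl⟩
      exact ⟨Finset.mem_univ _, y.2⟩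
  rw [e, Finset.card_map, Finset.card_univ, Fintype.card_fin]

/-- E1 -/
theorem stmtInv : StmtInv := by
  intro S _ ar χ n hn X hX
  have hXn : X.card ≤ n := by
    have := Finset.card_le_univ X
    rwa [Fintype.card_fin] at this
  obtain ⟨σ, hσ⟩ := perm_of_card (card_iniS hXn)
  exact dec_perm (hn.2 X.card hX) σ hσ

theorem sr_pow (n : ℕ) : sr n ^ 5 ≤ n := by
  unfold sr
  exact Nat.findGreatest_spec (P := fun b => b ^ 5 ≤ n) (m := 0) (Nat.zero_le _) (by norm_num)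

theorem le_sr {n b : ℕ} (h : b ^ 5 ≤ n) : b ≤ sr n := by
  unfold sr
  refine Nat.le_findGreatest ?_ h
  exact (Nat.le_self_pow (by norm_num) b).trans h

theorem sup_mono {M : Type} {k : ℕ} {Q : (Fin k → M) → Prop} {C D : Finset M} (h : Sup Q C)
    (hCD : C ⊆ D) : Sup Q D := fun σ hσ t => h σ (fun x hx => hσ x (hCD hx)) t

/-- E2 -/
theorem stmtInf (hcore : StmtCore) : StmtInf := by
  classical
  intro S _ ar χ H
  have := Fintype.ofFinite S
  choose c hc using hcore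
  obtain ⟨C0, hC0⟩ : ∃ C0, C0 = ∑ s, c (ar s) := ⟨_, rfl⟩
  refine Set.infinite_of_forall_exists_gt fun N => ?_
  obtain ⟨n, hn, R, hR, hsup⟩ := H (N + 1 + (2 * C0 + 1) ^ 5)
  obtain ⟨b, hb⟩ : ∃ b, b = sr n := ⟨_, rfl⟩
  have hb5 : b ^ 5 ≤ n := hb ▸ sr_pow n
  have hbC : 2 * C0 + 1 ≤ b := hb ▸ le_sr (by omega)
  have hb1 : 1 ≤ b := by omega
  have hbn : b ≤ n := (Nat.le_self_pow (by norm_num) b).trans hb5
  have hex : ∃ s : S, ¬ ∃ C : Finset (Fin n), C.card ≤ c (ar s) * b ^ 2 ∧ Sup (R s) C := by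
    by_contra hcon
    push Not at hcon
    choose D hD1 hD2 using hcon
    have h1 : SupI R (Finset.univ.biUnion D) := fun s =>
      sup_mono (hD2 s) (Finset.subset_biUnion_of_mem D (Finset.mem_univ s))
    have h2 := hsup _ h1
    have h3 : (Finset.univ.biUnion D).card ≤ C0 * b ^ 2 := by
      refine Finset.card_biUnion_le.trans ?_
      rw [hC0, Finset.sum_mul]
      exact Finset.sum_le_sum fun s _ => hD1 s
    have h4 : 2 * (C0 * b ^ 2) < b ^ 5 := by
      calc 2 * (C0 * b ^ 2) = (2 * C0) * b ^ 2 := by ring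
        _ < (2 * C0 + 1) * b ^ 2 := by
            have : 0 < b ^ 2 := by positivity
            nlinarith
        _ ≤ b * b ^ 2 := Nat.mul_le_mul_right _ hbC
        _ = b ^ 3 := by ring
        _ ≤ b ^ 5 := Nat.pow_le_pow_right hb1 (by norm_num)
    omega
  obtain ⟨s, hs⟩ := hex
  rcases hc (ar s) b hb1 (Fin n) (R s) with h | ⟨J, π, a1, a2, p, X, hX, hX1, hX2⟩
  · exact absurd h hs
  rw [Fintype.card_fin] at hX2
  have hd : Dec1 χ X := ⟨s, J, R, fun s w => R s (π ∘ w), a1, a2, p, hR, isMod_perm hR π, hX⟩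
  refine ⟨n, ⟨by omega, fun l hl => ?_⟩, by omega⟩
  rw [← hb] at hl
  have hI : (iniS n l).card = l := card_iniS (by omega)
  obtain ⟨X1, hX11, _, hX13⟩ := Finset.exists_subsuperset_card_eq (Finset.subset_univ (iniS n l))
    (n := X.card) (by omega) (by rw [Finset.card_univ, Fintype.card_fin]; omega)
  have hIc : ((iniS n l)ᶜ).card = n - l := by
    rw [Finset.card_compl, Fintype.card_fin, hI]
  have hsub : X1 \ iniS n l ⊆ (iniS n l)ᶜ := by
    intro x hx
    rw [Finset.mem_compl]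
    exact (Finset.mem_sdiff.1 hx).2
  obtain ⟨Y1, hY1, hY2, hY3⟩ := Finset.exists_subsuperset_card_eq hsub (n := X.card)
    ((Finset.card_le_card Finset.sdiff_subset).trans hX13.le) (by rw [hIc]; omega)
  obtain ⟨σ, hσ⟩ := perm_of_card hX13.symm
  obtain ⟨τ, hτ⟩ := perm_of_card hY3.symm
  refine ⟨X1, Y1, dec1_perm hd σ hσ, dec1_perm hd τ hτ, fun x => ?_⟩
  constructor
  · intro hx
    exact ⟨hX11 hx, fun hy => (Finset.mem_compl.1 (hY2 hy)) hx⟩
  · rintro ⟨hx, hy⟩
    by_contra hc'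
    exact hy (hY1 (Finset.mem_sdiff.2 ⟨hx, hc'⟩))

end Pool.Agent.Helper38.QD
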