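import Pool.Agent.Helper38.QD.Inv
import Pool.Agent.Helper6.QG.Base

/-!
# QD: exponentially many models

If all supports of a model `R` on `n` points have at least `n / 2` points, then `R` has at least `2 ^ (n / (4 k))` images, `k` a
bound for the arities.
-/

set_option autoImplicit false

namespace Pool.Agent.Helper38.QD

open FirstOrder FirstOrder.Language Pool.Agent.Helper20.Spectra Pool.Agent.Helper58.QD

/-- the statement -/
def StmtExp : Prop := ∀ (S : Type) [Finite S] (ar : S → ℕ) (χ : (RelLang S ar).Sentence) (k : ℕ),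
  1 ≤ k → (∀ s, ar s ≤ k) →
  (∀ N, ∃ n, N ≤ n ∧ ∃ R : Interp S ar (Fin n), IsMod χ R ∧
    ∀ C : Finset (Fin n), SupI R C → n ≤ 2 * C.card) →
  ∀ N, ∃ n r, N ≤ n ∧ n ≤ 4 * k * r ∧ 2 ^ r ≤ count χ n

variable {S : Type} {ar : S → ℕ}

/-- `2 ^ r` permutations which give different images of `R`, as seen on tuples in `V` -/
def GoodG {M : Type} [DecidableEq M] (R : Interp S ar M) (k r : ℕ) : Prop :=
  ∃ (V : Finset M) (G : Finset (Equiv.Perm M)), V.card ≤ (k + 1) * r ∧ G.card = 2 ^ r ∧
    (∀ g ∈ G, ∀ x, x ∉ V → g x = x) ∧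
    ∀ g ∈ G, ∀ h ∈ G, g ≠ h → ∃ (s : S) (t : Fin (ar s) → M), (∀ i, t i ∈ V) ∧
      ¬ (R s (g ∘ t) ↔ R s (h ∘ t))

theorem exists_nontwin {M : Type} [Fintype M] [DecidableEq M] {R : Interp S ar M} {V : Finset M}
    (h : ¬ SupI R V) : ∃ a b, a ∉ V ∧ b ∉ V ∧ ∃ (s : S) (t : Fin (ar s) → M),
      ¬ (R s (Equiv.swap a b ∘ t) ↔ R s t) := by
  by_contra hc
  push Not at hc
  apply h
  intro s
  refine Pool.Agent.Helper6.QG.sup_of_twin (R := R s) (C := V) ?_
  intro u v hu hv t
  by_contra hn
  have h1 := hc u v hu hv s t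
  tauto

theorem goodG {M : Type} [Fintype M] [DecidableEq M] (R : Interp S ar M) (k : ℕ)
    (hk : ∀ s, ar s ≤ k) (hsup : ∀ C : Finset M, SupI R C → Fintype.card M ≤ 2 * C.card) :
    ∀ r : ℕ, (∀ r' < r, 2 * (k + 1) * r' < Fintype.card M) → GoodG R k r := by
  classical
  intro r
  induction r with
  | zero =>
    intro _
    refine ⟨∅, {1}, by simp, by simp, ?_, ?_⟩
    · intro g hg x _
      rw [Finset.mem_singleton] at hg
      rw [hg]
      rfl
    · intro g hg h hh hne
      rw [Finset.mem_singleton] at hg hh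
      exact absurd (hg.trans hh.symm) hne
  | succ r ih =>
    intro hr
    obtain ⟨V, G, hV, hG, hfix, hdist⟩ := ih (fun r' hr' => hr r' (by omega))
    have hns : ¬ SupI R V := by
      intro hs
      have h1 := hsup V hs
      have h2 := hr r (by omega)
      have h3 : 2 * V.card ≤ 2 * (k + 1) * r := by
        calc 2 * V.card ≤ 2 * ((k + 1) * r) := Nat.mul_le_mul_left 2 hV
          _ = 2 * (k + 1) * r := by ring
      omega
    obtain ⟨a, b, ha, hb, s0, t0, ht0⟩ := exists_nontwin hns
    have hab : a ≠ b := by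
      rintro rfl
      apply ht0
      rw [Equiv.swap_self]
      exact Iff.rfl
    set τ : Equiv.Perm M := Equiv.swap a b with hτ
    have hτV : ∀ x, x ∈ V → τ x = x := by
      intro x hx
      refine Equiv.swap_apply_of_ne_of_ne ?_ ?_
      · rintro rfl; exact ha hx
      · rintro rfl; exact hb hx
    -- the tuple touches `a` or `b`
    have htouch : ∃ i, t0 i = a ∨ t0 i = b := by
      by_contra hc
      push Not at hc
      apply ht0
      have : τ ∘ t0 = t0 := by
        funext i
        exact Equiv.swap_apply_of_ne_of_ne (hc i).1 (hc i).2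
      rw [this]
    obtain ⟨V', hV'⟩ : ∃ V' : Finset M, V' = V ∪ (insert a (insert b (Finset.univ.image t0))) :=
      ⟨_, rfl⟩
    have hVV : V ⊆ V' := hV' ▸ Finset.subset_union_left
    have haV' : a ∈ V' := by
      rw [hV']
      exact Finset.mem_union_right _ (Finset.mem_insert_self _ _)
    have hbV' : b ∈ V' := by
      rw [hV']
      exact Finset.mem_union_right _ (Finset.mem_insert_of_mem (Finset.mem_insert_self _ _))
    have htV' : ∀ i, t0 i ∈ V' := by
      intro i
      rw [hV']
      exact Finset.mem_union_right _ (Finset.mem_insert_of_mem (Finset.mem_insert_of_mem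
        (Finset.mem_image_of_mem _ (Finset.mem_univ i))))
    have hcard : (insert a (insert b (Finset.univ.image t0))).card ≤ k + 1 := by
      have h1 : (Finset.univ.image t0).card ≤ k := by
        refine Finset.card_image_le.trans ?_
        rw [Finset.card_univ, Fintype.card_fin]
        exact hk s0
      obtain ⟨i, hi⟩ := htouch
      have hmem : t0 i ∈ Finset.univ.image t0 := Finset.mem_image_of_mem _ (Finset.mem_univ i)
      rcases hi with hi | hi
      · rw [hi] at hmem
        rw [Finset.insert_eq_of_mem (Finset.mem_insert_of_mem hmem)]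
        exact (Finset.card_insert_le _ _).trans (by omega)
      · rw [hi] at hmem
        rw [Finset.insert_eq_of_mem hmem]
        exact (Finset.card_insert_le _ _).trans (by omega)
    have hga : ∀ g ∈ G, g a = a := fun g hg => hfix g hg a ha
    have hgb : ∀ g ∈ G, g b = b := fun g hg => hfix g hg b hb
    have hcomm : ∀ g ∈ G, g * τ * g⁻¹ = τ := by
      intro g hg
      rw [hτ, ← Equiv.swap_apply_apply, hga g hg, hgb g hg]
    have hinj : Function.Injective (fun g : Equiv.Perm M => g * τ) := fun g h hgh =>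
      mul_right_cancel hgh
    have hdisj : Disjoint G (G.image (fun g => g * τ)) := by
      rw [Finset.disjoint_left]
      intro g hg hg'
      obtain ⟨h, hh, rfl⟩ := Finset.mem_image.1 hg'
      have h1 := hga _ hg
      have h2 : (h * τ) a = b := by
        show h (τ a) = b
        rw [hτ, Equiv.swap_apply_left]
        exact hgb h hh
      exact hab (h1.symm.trans h2)
    have hVg : ∀ g ∈ G, ∀ x, g x ∈ V' → x ∈ V' := by
      intro g hg x hx
      by_cases hxV : x ∈ V
      · exact hVV hxV
      · rwa [hfix g hg x hxV] at hx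
    refine ⟨V', G ∪ G.image (fun g => g * τ), ?_, ?_, ?_, ?_⟩
    · rw [hV']
      refine (Finset.card_union_le _ _).trans ?_
      calc V.card + (insert a (insert b (Finset.univ.image t0))).card
          ≤ (k + 1) * r + (k + 1) := Nat.add_le_add hV hcard
        _ = (k + 1) * (r + 1) := by ring
    · rw [Finset.card_union_of_disjoint hdisj, Finset.card_image_of_injective _ hinj, hG]
      ring
    · intro g hg x hx
      have hxV : x ∉ V := fun h => hx (hVV h)
      rcases Finset.mem_union.1 hg with hg | hg
      · exact hfix g hg x hxV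
      · obtain ⟨h, hh, rfl⟩ := Finset.mem_image.1 hg
        have h1 : τ x = x := by
          refine Equiv.swap_apply_of_ne_of_ne ?_ ?_
          · rintro rfl; exact hx haV'
          · rintro rfl; exact hx hbV'
        show h (τ x) = x
        rw [h1]
        exact hfix h hh x hxV
    · have hτt : ∀ {m : ℕ} (t : Fin m → M), (∀ i, t i ∈ V) → ∀ g : Equiv.Perm M,
          (g * τ : Equiv.Perm M) ∘ t = g ∘ t := by
        intro m t ht g
        funext i
        show g (τ (t i)) = g (t i)
        rw [hτV _ (ht i)]
      -- the same permutation with and without `τ`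
      have hself : ∀ g ∈ G, ∃ (s : S) (t : Fin (ar s) → M), (∀ i, t i ∈ V') ∧
          ¬ (R s (g ∘ t) ↔ R s ((g * τ : Equiv.Perm M) ∘ t)) := by
        intro g hg
        refine ⟨s0, (g⁻¹ : Equiv.Perm M) ∘ t0, fun i => ?_, ?_⟩
        · refine hVg g hg _ ?_
          have : g ((g⁻¹ : Equiv.Perm M) (t0 i)) = t0 i := by simp
          show g ((g⁻¹ : Equiv.Perm M) (t0 i)) ∈ V'
          rw [this]
          exact htV' i
        · have e1 : (g : M → M) ∘ ((g⁻¹ : Equiv.Perm M) ∘ t0) = t0 := by
            funext i
            simp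
          have e2 : ((g * τ : Equiv.Perm M) : M → M) ∘ ((g⁻¹ : Equiv.Perm M) ∘ t0) = τ ∘ t0 := by
            funext i
            have := congrArg (fun σ : Equiv.Perm M => σ (t0 i)) (hcomm g hg)
            simpa using this
          rw [e1, e2]
          intro h
          exact ht0 h.symm
      intro g hg h hh hne
      rcases Finset.mem_union.1 hg with hg | hg <;> rcases Finset.mem_union.1 hh with hh | hh
      · obtain ⟨s, t, h1, h2⟩ := hdist g hg h hh hne
        exact ⟨s, t, fun i => hVV (h1 i), h2⟩
      · obtain ⟨h', hh', rfl⟩ := Finset.mem_image.1 hh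
        by_cases he : g = h'
        · subst he
          exact hself g hg
        · obtain ⟨s, t, h1, h2⟩ := hdist g hg h' hh' he
          refine ⟨s, t, fun i => hVV (h1 i), ?_⟩
          rw [hτt t h1]
          exact h2
      · obtain ⟨g', hg', rfl⟩ := Finset.mem_image.1 hg
        by_cases he : g' = h
        · subst he
          obtain ⟨s, t, h1, h2⟩ := hself g' hg'
          exact ⟨s, t, h1, fun h3 => h2 h3.symm⟩
        · obtain ⟨s, t, h1, h2⟩ := hdist g' hg' h hh he
          refine ⟨s, t, fun i => hVV (h1 i), ?_⟩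
          rw [hτt t h1]
          exact h2
      · obtain ⟨g', hg', rfl⟩ := Finset.mem_image.1 hg
        obtain ⟨h', hh', rfl⟩ := Finset.mem_image.1 hh
        have he : g' ≠ h' := fun he => hne (by rw [he])
        obtain ⟨s, t, h1, h2⟩ := hdist g' hg' h' hh' he
        refine ⟨s, t, fun i => hVV (h1 i), ?_⟩
        rw [hτt t h1, hτt t h1]
        exact h2

theorem stmtExp : StmtExp := by
  classical
  intro S _ ar χ k hk1 hk H N
  obtain ⟨n, hn, R, hR, hsup⟩ := H (N + 1)
  -- the least `r` with `n ≤ 2 (k + 1) r`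
  have hex : ∃ r, n ≤ 2 * (k + 1) * r := ⟨n, Nat.le_mul_of_pos_left n (by positivity)⟩
  obtain ⟨r, hr⟩ : ∃ r, r = Nat.find hex := ⟨_, rfl⟩
  have h1 : n ≤ 2 * (k + 1) * r := hr ▸ Nat.find_spec hex
  have h2 : ∀ r' < r, 2 * (k + 1) * r' < n := by
    intro r' hr'
    rw [hr] at hr'
    exact not_le.1 (Nat.find_min hex hr')
  have hsup' : ∀ C : Finset (Fin n), SupI R C → Fintype.card (Fin n) ≤ 2 * C.card := by
    intro C hC
    rw [Fintype.card_fin]
    exact hsup C hC
  obtain ⟨V, G, _, hG, _, hdist⟩ := goodG R k hk hsup' r (by rw [Fintype.card_fin]; exact h2)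
  refine ⟨n, r, by omega, ?_, ?_⟩
  · refine h1.trans (Nat.mul_le_mul_right r ?_)
    omega
  · rw [← hG]
    unfold count
    have hinj : Function.Injective (fun g : {g // g ∈ G} =>
        (⟨fun s w => R s ((g : Equiv.Perm (Fin n)) ∘ w), isMod_perm hR _⟩ :
          {R : Interp S ar (Fin n) // IsMod χ R})) := by
      intro g h hgh
      by_contra hne
      have hne' : (g : Equiv.Perm (Fin n)) ≠ h := fun he => hne (Subtype.ext he)
      obtain ⟨s, t, _, h3⟩ := hdist g g.2 h h.2 hne'
      apply h3
      have h4 := congrFun (congrFun (congrArg Subtype.val hgh) s) t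
      exact Iff.of_eq h4
    have hle := Nat.card_le_card_of_injective _ hinj
    rwa [Nat.card_eq_fintype_card (α := {g // g ∈ G}), Fintype.card_coe] at hle

end Pool.Agent.Helper38.QD
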