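import Pool.Agent.Helper38.QD.XJdef

/-!
# QD, linear version: all sets with at most `n / q` elements are given by models
-/

set_option autoImplicit false

namespace Pool.Agent.Helper38.QD

open FirstOrder FirstOrder.Language Pool.Agent.Helper20.Spectra Pool.Agent.Helper58.QD

/-- the linear core -/
def StmtCoreLin : Prop := ∀ k : ℕ, ∃ c : ℕ, ∀ s : ℕ, 1 ≤ s → ∀ (M : Type) [Fintype M]
  [DecidableEq M] (R : (Fin k → M) → Prop),
  (∃ C : Finset M, C.card ≤ c * s ∧ Sup R C) ∨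
  ∃ (J : Finset (Fin k)) (π : Equiv.Perm M) (a1 a2 : Fin k → M) (p : M) (X : Finset M),
    (∀ x, x ∈ X ↔ XJ J R (fun t => R (π ∘ t)) a1 a2 p x) ∧ s < X.card ∧
    X.card + s < Fintype.card M

/-- the sizes for which all sets with at most `n / q` elements are given by models of `χ` -/
def TTq {S : Type} {ar : S → ℕ} (χ : (RelLang S ar).Sentence) (q : ℕ) : Set ℕ :=
  {n | 1 ≤ n ∧ ∀ l, q * l ≤ n → Dec χ (iniS n l)}

/-- E1, linear -/
def StmtInvL : Prop := ∀ (S : Type) [Finite S] (ar : S → ℕ) (χ : (RelLang S ar).Sentence) (q : ℕ),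
  ∀ n ∈ TTq χ q, ∀ X : Finset (Fin n), q * X.card ≤ n → Dec χ X

/-- E2, linear -/
def StmtInfL : Prop := ∀ (S : Type) [Finite S] (ar : S → ℕ) (χ : (RelLang S ar).Sentence),
  (∀ N, ∃ n, N ≤ n ∧ ∃ R : Interp S ar (Fin n), IsMod χ R ∧
    ∀ C : Finset (Fin n), SupI R C → n ≤ 2 * C.card) → ∃ q, 2 ≤ q ∧ (TTq χ q).Infinite

/-- F2', linear -/
def StmtF2L : Prop := ∀ (S : Type) [Finite S] (ar : S → ℕ) (χ : (RelLang S ar).Sentence) (q : ℕ),
  2 ≤ q → Qdf χ Empty Empty (fun n _ _ => n ∈ TTq χ q)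

theorem stmtInvL : StmtInvL := by
  intro S _ ar χ q n hn X hX
  have hXn : X.card ≤ n := by
    have := Finset.card_le_univ X
    rwa [Fintype.card_fin] at this
  obtain ⟨σ, hσ⟩ := perm_of_card (card_iniS hXn)
  exact dec_perm (hn.2 X.card hX) σ hσ

theorem stmtInfL (hcore : StmtCoreLin) : StmtInfL := by
  classical
  intro S _ ar χ H
  have := Fintype.ofFinite S
  choose c hc using hcore
  obtain ⟨C0, hC0⟩ : ∃ C0, C0 = ∑ s, c (ar s) := ⟨_, rfl⟩
  refine ⟨2 * C0 + 2, by omega, Set.infinite_of_forall_exists_gt fun N => ?_⟩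
  obtain ⟨n, hn, R, hR, hsup⟩ := H (N + 1 + (2 * C0 + 2))
  obtain ⟨b, hb⟩ : ∃ b, b = n / (2 * C0 + 2) := ⟨_, rfl⟩
  have hbn : (2 * C0 + 2) * b ≤ n := by
    rw [hb]
    exact Nat.mul_div_le _ _
  have hb1 : 1 ≤ b := by
    rw [hb, Nat.one_le_div_iff (by omega)]
    omega
  have hbn' : b ≤ n := le_trans (Nat.le_mul_of_pos_left b (by omega)) hbn
  have hex : ∃ s : S, ¬ ∃ C : Finset (Fin n), C.card ≤ c (ar s) * b ∧ Sup (R s) C := by
    by_contra hcon
    push Not at hcon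
    choose D hD1 hD2 using hcon
    have h1 : SupI R (Finset.univ.biUnion D) := fun s =>
      sup_mono (hD2 s) (Finset.subset_biUnion_of_mem D (Finset.mem_univ s))
    have h2 := hsup _ h1
    have h3 : (Finset.univ.biUnion D).card ≤ C0 * b := by
      refine Finset.card_biUnion_le.trans ?_
      rw [hC0, Finset.sum_mul]
      exact Finset.sum_le_sum fun s _ => hD1 s
    have h4 : 2 * (C0 * b) < (2 * C0 + 2) * b := by
      nlinarith
    omega
  obtain ⟨s, hs⟩ := hex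
  rcases hc (ar s) b hb1 (Fin n) (R s) with h | ⟨J, π, a1, a2, p, X, hX, hX1, hX2⟩
  · exact absurd h hs
  rw [Fintype.card_fin] at hX2
  have hd : Dec1 χ X := ⟨s, J, R, fun s w => R s (π ∘ w), a1, a2, p, hR, isMod_perm hR π, hX⟩
  refine ⟨n, ⟨by omega, fun l hl => ?_⟩, by omega⟩
  have hlb : l ≤ b := by
    rw [hb, Nat.le_div_iff_mul_le (by omega)]
    rw [mul_comm]
    exact hl
  have hI : (iniS n l).card = l := card_iniS (by omega)
  obtain ⟨X1, hX11, _, hX13⟩ := Finset.exists_subsuperset_card_eq (Finset.subset_univ (iniS n l))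
    (n := X.card) (by omega) (by rw [Finset.card_univ, Fintype.card_fin]; omega)
  have hIc : ((iniS n l)ᶜ).card = n - l := by
    rw [Finset.card_compl, Fintype.card_fin, hI]
  have hsub : X1 \ iniS n l ⊆ (iniS n l)ᶜ := by
    intro x hx
    rw [Finset.mem_compl]
    exact (Finset.mem_sdiff.1 hx).2
  obtain ⟨Y1, hY1, hY2, hY3⟩ := Finset.exists_subsuperset_card_eq hsub (n := X.card)
    ((Finset.card_le_card Finset.sdiff_subset).trans hX13.le) (by rw [hIc]; omega)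
  obtain ⟨σ, hσ⟩ := perm_of_card hX13.symm
  obtain ⟨τ, hτ⟩ := perm_of_card hY3.symm
  refine ⟨X1, Y1, dec1_perm hd σ hσ, dec1_perm hd τ hτ, fun x => ?_⟩
  constructor
  · intro hx
    exact ⟨hX11 hx, fun hy => (Finset.mem_compl.1 (hY2 hy)) hx⟩
  · rintro ⟨hx, hy⟩
    by_contra hc'
    exact hy (hY1 (Finset.mem_sdiff.2 ⟨hx, hc'⟩))

variable {S : Type} {ar : S → ℕ} {χ : (RelLang S ar).Sentence} {α β : Type}

theorem q_mulc (j : ℕ) : ∀ {α : Type} (l x : α),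
    Qdf χ α β (fun _ v _ => j * (v l : ℕ) = (v x : ℕ)) := by
  induction j with
  | zero =>
    intro α l x
    exact (q_zero x).congr (fun n v V => by
      rw [Nat.zero_mul]
      exact eq_comm)
  | succ j ih =>
    intro α l x
    have h1 : Qdf χ α β (fun n v _ => ∃ y : Fin n, j * (v l : ℕ) = (y : ℕ) ∧
        (y : ℕ) + (v l : ℕ) = (v x : ℕ)) :=
      Qdf.ex (P := fun n v _ y => j * (v l : ℕ) = (y : ℕ) ∧ (y : ℕ) + (v l : ℕ) = (v x : ℕ))
        ((ih (Sum.inl l) (Sum.inr ())).and (q_add (Sum.inr ()) (Sum.inl l) (Sum.inl x)))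
    refine h1.congr (fun n v V => ?_)
    have hx := (v x).is_lt
    constructor
    · intro h
      have h2 : j * (v l : ℕ) + (v l : ℕ) = (v x : ℕ) := by rw [← h]; ring
      exact ⟨⟨j * (v l : ℕ), by omega⟩, rfl, h2⟩
    · rintro ⟨y, h2, h3⟩
      rw [← h3, ← h2]
      ring

/-- comparison of `q * l` with the size of the universe -/
theorem q_mulcLe (q : ℕ) (hq : 1 ≤ q) (l : α) : Qdf χ α β (fun n v _ => q * (v l : ℕ) ≤ n) := by
  have h1 : Qdf χ α β (fun n v _ => ∃ x : Fin 4 → Fin n, (q - 1) * (v l : ℕ) = (x 0 : ℕ) ∧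
      (x 1 : ℕ) = 1 ∧ (x 2 : ℕ) + (x 1 : ℕ) = (v l : ℕ) ∧ (x 0 : ℕ) + (x 2 : ℕ) = (x 3 : ℕ)) :=
    Qdf.exF (P := fun n v _ x => (q - 1) * (v l : ℕ) = (x 0 : ℕ) ∧
      (x 1 : ℕ) = 1 ∧ (x 2 : ℕ) + (x 1 : ℕ) = (v l : ℕ) ∧ (x 0 : ℕ) + (x 2 : ℕ) = (x 3 : ℕ))
      ((q_mulc (q - 1) (Sum.inl l) (Sum.inr 0)).and ((q_one (Sum.inr 1)).and
        ((q_add (Sum.inr 2) (Sum.inr 1) (Sum.inl l)).and
        (q_add (Sum.inr 0) (Sum.inr 2) (Sum.inr 3)))))
  refine ((q_zero l).or h1).congr (fun n v V => ?_)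
  have hl := (v l).is_lt
  obtain ⟨L, hL⟩ : ∃ L : ℕ, L = (v l : ℕ) := ⟨_, rfl⟩
  rw [← hL] at hl ⊢
  obtain ⟨j, rfl⟩ : ∃ j, q = j + 1 := ⟨q - 1, by omega⟩
  have e : (j + 1) * L = j * L + L := by ring
  rw [e, Nat.add_sub_cancel]
  constructor
  · intro h
    by_cases h0 : L = 0
    · exact Or.inl h0
    right
    refine ⟨![⟨j * L, by omega⟩, ⟨1, by omega⟩, ⟨L - 1, by omega⟩,
      ⟨j * L + (L - 1), by omega⟩], ?_, ?_, ?_, ?_⟩
    · simp
    · simp
    · simp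
      omega
    · simp
  · rintro (h | ⟨x, h1, h2, h3, h4⟩)
    · rw [h, Nat.mul_zero]
      omega
    · have := (x 3).is_lt
      omega

theorem stmtF2L : StmtF2L := by
  intro S _ ar χ q hq
  have h1 : Qdf χ Empty Empty (fun n _ _ => ∃ _x : Fin n, True) :=
    Qdf.ex (P := fun _ _ _ _ => True) (Qdf.const True)
  have h3 : Qdf χ Empty Empty (fun n _ _ => ∀ l : Fin n, q * (l : ℕ) ≤ n →
      Dec χ (iniS n l)) :=
    Qdf.all (P := fun n _ _ l => q * (l : ℕ) ≤ n → Dec χ (iniS n l))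
      ((q_mulcLe q (by omega) (Sum.inr ())).imp (q_decIni (Sum.inr ())))
  refine (h1.and h3).congr (fun n v V => ?_)
  constructor
  · intro h
    exact ⟨⟨⟨0, h.1⟩, trivial⟩, fun l hl => h.2 l hl⟩
  · rintro ⟨⟨x, _⟩, h⟩
    have hx := x.is_lt
    refine ⟨by omega, fun l hl => ?_⟩
    have hln : l < n := by
      have : 2 * l ≤ n := (Nat.mul_le_mul_right l hq).trans hl
      omega
    exact h ⟨l, hln⟩ hl

end Pool.Agent.Helper38.QD
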