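import Pool.Agent.Helper38.QD.InvL
import Pool.Agent.Helper6.QG.Lin2

/-!
# QD, linear version: the core without hypotheses
-/

set_option autoImplicit false

namespace Pool.Agent.Helper38.QD

open FirstOrder FirstOrder.Language Pool.Agent.Helper20.Spectra Pool.Agent.Helper58.QD

theorem stmtCoreLin : StmtCoreLin := fun k => by
  obtain ⟨c, hc⟩ := Pool.Agent.Helper6.QG.core_lin k
  exact ⟨c, fun s hs M _ _ R => hc s hs M R⟩

theorem stmtInfL' : StmtInfL := stmtInfL stmtCoreLin

end Pool.Agent.Helper38.QD
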