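import Pool.Agent.Helper58.QD.QDef
import Pool.Agent.Helper38.QD.Inv

/-!
# QD, block F2': the sets `XJ`, `Dec` of initial segments, and `n ∈ TT χ` are definable
-/

set_option autoImplicit false

namespace Pool.Agent.Helper38.QD

open FirstOrder FirstOrder.Language Pool.Agent.Helper20.Spectra Pool.Agent.Helper58.QD
  Pool.Agent.Helper14.SS

variable {S : Type} {ar : S → ℕ} {χ : (RelLang S ar).Sentence} {α β : Type}

/-! ### arithmetic -/

theorem q_add (i j l : α) :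
    Qdf χ α β (fun _ v _ => (v i : ℕ) + (v j : ℕ) = (v l : ℕ)) :=
  (Qdf.ofFD (FD.rel (ar := fun _ : Bool => 3) true (α := α)
    (f := fun _ v => v ∘ ![i, j, l]) ⟨![i, j, l], fun _ _ => rfl⟩)).congr
    (fun _ _ _ => Iff.rfl)

theorem q_mul (i j l : α) :
    Qdf χ α β (fun _ v _ => (v i : ℕ) * (v j : ℕ) = (v l : ℕ)) :=
  (Qdf.ofFD (FD.rel (ar := fun _ : Bool => 3) false (α := α)
    (f := fun _ v => v ∘ ![i, j, l]) ⟨![i, j, l], fun _ _ => rfl⟩)).congr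
    (fun _ _ _ => Iff.rfl)

theorem q_eq (i j : α) : Qdf χ α β (fun _ v _ => v i = v j) :=
  Qdf.ofFD (FD.eq (El.var i) (El.var j))

theorem q_zero (i : α) : Qdf χ α β (fun _ v _ => (v i : ℕ) = 0) :=
  (q_add i i i).congr (fun n v V => by omega)

theorem q_one (i : α) : Qdf χ α β (fun _ v _ => (v i : ℕ) = 1) :=
  ((q_mul i i i).and (q_zero i).not).congr (fun n v V => by
    constructor
    · intro h; rw [h]; simp
    · rintro ⟨h1, h2⟩
      have : (v i : ℕ) * (v i : ℕ) = (v i : ℕ) * 1 := by rw [h1, mul_one]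
      exact Nat.eq_of_mul_eq_mul_left (by omega) this)

theorem q_lt (i j : α) : Qdf χ α β (fun _ v _ => (v i : ℕ) < (v j : ℕ)) := by
  have h1 : Qdf χ α β (fun n v _ => ∃ x : Fin n, (v i : ℕ) + (x : ℕ) = (v j : ℕ) ∧
      ¬ (x : ℕ) = 0) :=
    Qdf.ex (P := fun n v _ x => (v i : ℕ) + (x : ℕ) = (v j : ℕ) ∧ ¬ (x : ℕ) = 0)
      ((q_add (Sum.inl i) (Sum.inr ()) (Sum.inl j)).and (q_zero (Sum.inr ())).not)
  refine h1.congr (fun n v V => ?_)
  constructor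
  · intro h
    have := (v j).is_lt
    refine ⟨⟨(v j : ℕ) - (v i : ℕ), by omega⟩, ?_, ?_⟩
    · show (v i : ℕ) + ((v j : ℕ) - (v i : ℕ)) = _
      omega
    · show ¬ ((v j : ℕ) - (v i : ℕ)) = 0
      omega
  · rintro ⟨x, h1, h2⟩
    omega

/-- finitely many universal quantifiers -/
theorem q_allF {γ : Type} [Finite γ] {P : ∀ n : ℕ, (α → Fin n) → (β → Interp S ar (Fin n)) →
      (γ → Fin n) → Prop}
    (h : Qdf χ (α ⊕ γ) β (fun n v V => P n (v ∘ Sum.inl) V (v ∘ Sum.inr))) :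
    Qdf χ α β (fun n v V => ∀ x : γ → Fin n, P n v V x) :=
  (Qdf.not (Qdf.exF (P := fun n v V x => ¬ P n v V x) h.not)).congr (fun n v V => by
    constructor
    · intro h ⟨x, hx⟩; exact hx (h x)
    · intro h x; by_contra hx; exact h ⟨x, hx⟩)

/-! ### transpositions and `XJ` -/

theorem swap_iff {M : Type} [DecidableEq M] (x p a b : M) :
    b = Equiv.swap x p a ↔ (a = x ∧ b = p) ∨ (a = p ∧ b = x) ∨ (¬ a = x ∧ ¬ a = p ∧ b = a) := by
  rw [Equiv.swap_apply_def]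
  split_ifs with h1 h2
  · subst h1
    constructor
    · intro h; exact Or.inl ⟨rfl, h⟩
    · rintro (⟨_, h⟩ | ⟨h, h'⟩ | ⟨h, _⟩)
      · exact h
      · rw [h', h]
      · exact absurd rfl h
  · subst h2
    constructor
    · intro h; exact Or.inr (Or.inl ⟨rfl, h⟩)
    · rintro (⟨h, _⟩ | ⟨_, h'⟩ | ⟨_, h, _⟩)
      · exact absurd h h1
      · exact h'
      · exact absurd rfl h
  · constructor
    · intro h; exact Or.inr (Or.inr ⟨h1, h2, h⟩)
    · rintro (⟨h, _⟩ | ⟨h, _⟩ | ⟨_, _, h⟩)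
      · exact absurd h h1
      · exact absurd h h2
      · exact h

theorem q_swap (x p a b : α) : Qdf χ α β (fun _ v _ => v b = Equiv.swap (v x) (v p) (v a)) :=
  (((q_eq a x).and (q_eq b p)).or (((q_eq a p).and (q_eq b x)).or
    ((q_eq a x).not.and ((q_eq a p).not.and (q_eq b a))))).congr
    (fun _ v _ => swap_iff (v x) (v p) (v a) (v b))

/-- an overwritten tuple of variables -/
theorem q_ov (j : β) (s : S) (J : Finset (Fin (ar s))) (a t : Fin (ar s) → α) :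
    Qdf χ α β (fun _ v V => V j s (ov J (fun i => v (a i)) (fun i => v (t i)))) :=
  (Qdf.rel j s (fun i => if i ∈ J then a i else t i)).congr (fun n v V => by
    refine Iff.of_eq (congrArg (V j s) ?_)
    funext i
    unfold ov
    split_ifs <;> rfl)

/-- `XJ` is definable: `j1, j2` name the models, `a1, a2, p, x` the elements -/
theorem q_XJ (s : S) (J : Finset (Fin (ar s))) (j1 j2 : β) (a1 a2 : Fin (ar s) → α) (p x : α) :
    Qdf χ α β (fun _ v V => XJ J (V j1 s) (V j2 s) (fun i => v (a1 i)) (fun i => v (a2 i))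
      (v p) (v x)) := by
  have h1 : Qdf χ α β (fun n v V => ∀ w : Fin (ar s) ⊕ Fin (ar s) → Fin n,
      (∀ i : Fin (ar s), w (Sum.inr i) = Equiv.swap (v x) (v p) (w (Sum.inl i))) →
      ((V j1 s (ov J (fun i => v (a1 i)) (fun i => w (Sum.inr i))) ↔
          V j2 s (ov J (fun i => v (a2 i)) (fun i => w (Sum.inr i)))) ↔
        (V j1 s (ov J (fun i => v (a1 i)) (fun i => w (Sum.inl i))) ↔
          V j2 s (ov J (fun i => v (a2 i)) (fun i => w (Sum.inl i)))))) := by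
    refine q_allF (P := fun n v V w =>
      (∀ i : Fin (ar s), w (Sum.inr i) = Equiv.swap (v x) (v p) (w (Sum.inl i))) →
      ((V j1 s (ov J (fun i => v (a1 i)) (fun i => w (Sum.inr i))) ↔
          V j2 s (ov J (fun i => v (a2 i)) (fun i => w (Sum.inr i)))) ↔
        (V j1 s (ov J (fun i => v (a1 i)) (fun i => w (Sum.inl i))) ↔
          V j2 s (ov J (fun i => v (a2 i)) (fun i => w (Sum.inl i)))))) ?_
    refine Qdf.imp ?_ (Qdf.iff (Qdf.iff ?_ ?_) (Qdf.iff ?_ ?_))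
    · exact Qdf.allFin (fun i => q_swap (Sum.inl x) (Sum.inl p) (Sum.inr (Sum.inl i))
        (Sum.inr (Sum.inr i)))
    · exact q_ov j1 s J (fun i => Sum.inl (a1 i)) (fun i => Sum.inr (Sum.inr i))
    · exact q_ov j2 s J (fun i => Sum.inl (a2 i)) (fun i => Sum.inr (Sum.inr i))
    · exact q_ov j1 s J (fun i => Sum.inl (a1 i)) (fun i => Sum.inr (Sum.inl i))
    · exact q_ov j2 s J (fun i => Sum.inl (a2 i)) (fun i => Sum.inr (Sum.inl i))
  refine h1.congr (fun n v V => ?_)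
  unfold XJ
  constructor
  · intro h w hw
    have e : (fun i => w (Sum.inr i)) = Equiv.swap (v x) (v p) ∘ (fun i => w (Sum.inl i)) :=
      funext hw
    rw [e]
    exact h _
  · intro h t
    exact h (Sum.elim t (Equiv.swap (v x) (v p) ∘ t)) (fun i => rfl)

/-! ### `Dec` of initial segments -/

/-- kinds: a symbol and a set of coordinates -/
abbrev Kd (S : Type) (ar : S → ℕ) : Type := Σ s : S, Finset (Fin (ar s))

theorem dec_iff {n : ℕ} (Z : Finset (Fin n)) : Dec χ Z ↔ ∃ c d : Kd S ar,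
    ∃ V : Fin 4 → Interp S ar (Fin n), (∀ j, IsMod χ (V j)) ∧
    ∃ w : (Fin (ar c.1) ⊕ Fin (ar c.1) ⊕ Unit) ⊕ (Fin (ar d.1) ⊕ Fin (ar d.1) ⊕ Unit) → Fin n,
      ∀ x, x ∈ Z ↔
        XJ c.2 (V 0 c.1) (V 1 c.1) (fun i => w (Sum.inl (Sum.inl i)))
          (fun i => w (Sum.inl (Sum.inr (Sum.inl i)))) (w (Sum.inl (Sum.inr (Sum.inr ())))) x ∧
        ¬ XJ d.2 (V 2 d.1) (V 3 d.1) (fun i => w (Sum.inr (Sum.inl i)))
          (fun i => w (Sum.inr (Sum.inr (Sum.inl i)))) (w (Sum.inr (Sum.inr (Sum.inr ())))) x := by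
  classical
  constructor
  · rintro ⟨X, Y, ⟨s, J, R1, R2, a1, a2, p, h1, h2, h3⟩, ⟨s', J', R1', R2', a1', a2', p', h1', h2',
      h3'⟩, h⟩
    refine ⟨⟨s, J⟩, ⟨s', J'⟩, ![R1, R2, R1', R2'], ?_,
      Sum.elim (Sum.elim a1 (Sum.elim a2 (fun _ => p)))
        (Sum.elim a1' (Sum.elim a2' (fun _ => p'))), ?_⟩
    · intro j
      fin_cases j
      · exact h1
      · exact h2
      · exact h1'
      · exact h2'
    · intro x
      rw [h x, h3 x, h3' x]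
      rfl
  · rintro ⟨⟨s, J⟩, ⟨s', J'⟩, V, hV, w, h⟩
    refine ⟨Finset.univ.filter (fun x => XJ J (V 0 s) (V 1 s) (fun i => w (Sum.inl (Sum.inl i)))
          (fun i => w (Sum.inl (Sum.inr (Sum.inl i)))) (w (Sum.inl (Sum.inr (Sum.inr ())))) x),
      Finset.univ.filter (fun x => XJ J' (V 2 s') (V 3 s') (fun i => w (Sum.inr (Sum.inl i)))
          (fun i => w (Sum.inr (Sum.inr (Sum.inl i)))) (w (Sum.inr (Sum.inr (Sum.inr ())))) x),
      ⟨s, J, V 0, V 1, fun i => w (Sum.inl (Sum.inl i)), fun i => w (Sum.inl (Sum.inr (Sum.inl i))),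
        w (Sum.inl (Sum.inr (Sum.inr ()))), hV 0, hV 1, fun x => ?_⟩,
      ⟨s', J', V 2, V 3, fun i => w (Sum.inr (Sum.inl i)), fun i => w (Sum.inr (Sum.inr (Sum.inl i))),
        w (Sum.inr (Sum.inr (Sum.inr ()))), hV 2, hV 3, fun x => ?_⟩, fun x => ?_⟩
    · rw [Finset.mem_filter]
      exact ⟨fun hx => hx.2, fun hx => ⟨Finset.mem_univ _, hx⟩⟩
    · rw [Finset.mem_filter]
      exact ⟨fun hx => hx.2, fun hx => ⟨Finset.mem_univ _, hx⟩⟩
    · rw [h x, Finset.mem_filter, Finset.mem_filter]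
      simp only [Finset.mem_univ, true_and]

theorem q_decIni [Finite S] (l : α) : Qdf χ α β (fun n v _ => Dec χ (iniS n (v l))) := by
  have h1 : Qdf χ α β (fun n v _ => ∃ c d : Kd S ar,
    ∃ V : Fin 4 → Interp S ar (Fin n), (∀ j, IsMod χ (V j)) ∧
    ∃ w : (Fin (ar c.1) ⊕ Fin (ar c.1) ⊕ Unit) ⊕ (Fin (ar d.1) ⊕ Fin (ar d.1) ⊕ Unit) → Fin n,
      ∀ x : Fin n, (x : ℕ) < (v l : ℕ) ↔
        XJ c.2 (V 0 c.1) (V 1 c.1) (fun i => w (Sum.inl (Sum.inl i)))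
          (fun i => w (Sum.inl (Sum.inr (Sum.inl i)))) (w (Sum.inl (Sum.inr (Sum.inr ())))) x ∧
        ¬ XJ d.2 (V 2 d.1) (V 3 d.1) (fun i => w (Sum.inr (Sum.inl i)))
          (fun i => w (Sum.inr (Sum.inr (Sum.inl i)))) (w (Sum.inr (Sum.inr (Sum.inr ())))) x) := by
    refine Qdf.exFin (fun c => Qdf.exFin (fun d => ?_))
    refine Qdf.exRF (γ := Fin 4) (P := fun n v _ V =>
      ∃ w : (Fin (ar c.1) ⊕ Fin (ar c.1) ⊕ Unit) ⊕ (Fin (ar d.1) ⊕ Fin (ar d.1) ⊕ Unit) → Fin n,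
      ∀ x : Fin n, (x : ℕ) < (v l : ℕ) ↔
        XJ c.2 (V 0 c.1) (V 1 c.1) (fun i => w (Sum.inl (Sum.inl i)))
          (fun i => w (Sum.inl (Sum.inr (Sum.inl i)))) (w (Sum.inl (Sum.inr (Sum.inr ())))) x ∧
        ¬ XJ d.2 (V 2 d.1) (V 3 d.1) (fun i => w (Sum.inr (Sum.inl i)))
          (fun i => w (Sum.inr (Sum.inr (Sum.inl i)))) (w (Sum.inr (Sum.inr (Sum.inr ())))) x) ?_
    refine Qdf.exF (P := fun n v V w => ∀ x : Fin n, (x : ℕ) < (v l : ℕ) ↔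
        XJ c.2 (V (Sum.inr 0) c.1) (V (Sum.inr 1) c.1) (fun i => w (Sum.inl (Sum.inl i)))
          (fun i => w (Sum.inl (Sum.inr (Sum.inl i)))) (w (Sum.inl (Sum.inr (Sum.inr ())))) x ∧
        ¬ XJ d.2 (V (Sum.inr 2) d.1) (V (Sum.inr 3) d.1) (fun i => w (Sum.inr (Sum.inl i)))
          (fun i => w (Sum.inr (Sum.inr (Sum.inl i)))) (w (Sum.inr (Sum.inr (Sum.inr ())))) x) ?_
    refine Qdf.all (P := fun n v V x => (x : ℕ) < (v (Sum.inl l) : ℕ) ↔
        XJ c.2 (V (Sum.inr 0) c.1) (V (Sum.inr 1) c.1) (fun i => v (Sum.inr (Sum.inl (Sum.inl i))))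
          (fun i => v (Sum.inr (Sum.inl (Sum.inr (Sum.inl i)))))
          (v (Sum.inr (Sum.inl (Sum.inr (Sum.inr ()))))) x ∧
        ¬ XJ d.2 (V (Sum.inr 2) d.1) (V (Sum.inr 3) d.1)
          (fun i => v (Sum.inr (Sum.inr (Sum.inl i))))
          (fun i => v (Sum.inr (Sum.inr (Sum.inr (Sum.inl i)))))
          (v (Sum.inr (Sum.inr (Sum.inr (Sum.inr ()))))) x) ?_
    refine Qdf.iff ?_ (Qdf.and ?_ (Qdf.not ?_))
    · exact q_lt (Sum.inr ()) (Sum.inl (Sum.inl l))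
    · exact q_XJ c.1 c.2 (Sum.inr 0) (Sum.inr 1) (fun i => Sum.inl (Sum.inr (Sum.inl (Sum.inl i))))
        (fun i => Sum.inl (Sum.inr (Sum.inl (Sum.inr (Sum.inl i)))))
        (Sum.inl (Sum.inr (Sum.inl (Sum.inr (Sum.inr ()))))) (Sum.inr ())
    · exact q_XJ d.1 d.2 (Sum.inr 2) (Sum.inr 3) (fun i => Sum.inl (Sum.inr (Sum.inr (Sum.inl i))))
        (fun i => Sum.inl (Sum.inr (Sum.inr (Sum.inr (Sum.inl i)))))
        (Sum.inl (Sum.inr (Sum.inr (Sum.inr (Sum.inr ()))))) (Sum.inr ())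
  refine h1.congr (fun n v V => ?_)
  rw [dec_iff]
  have hm : ∀ x : Fin n, x ∈ iniS n (v l) ↔ (x : ℕ) < (v l : ℕ) := by
    intro x
    rw [iniS, Finset.mem_filter]
    exact ⟨fun h => h.2, fun h => ⟨Finset.mem_univ _, h⟩⟩
  simp only [hm]

/-! ### the sizes in `TT` -/

theorem pow5 {n L : ℕ} (hn : 2 ≤ n) (hL : 1 ≤ L) (h : L ^ 5 ≤ n) : L ^ 4 < n := by
  rcases Nat.lt_or_ge 1 L with h1 | h1
  · exact (Nat.pow_lt_pow_right h1 (by norm_num)).trans_le h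
  · have : L = 1 := by omega
    subst this
    norm_num
    omega

theorem q_pow5 (l : α) : Qdf χ α β (fun n v _ => 2 ≤ n ∧ (v l : ℕ) ^ 5 ≤ n) := by
  have h2 : Qdf χ α β (fun n _ _ => ∃ x : Fin 2 → Fin n, ¬ x 0 = x 1) :=
    Qdf.exF (P := fun n _ _ x => ¬ x 0 = x 1) (q_eq (Sum.inr 0) (Sum.inr 1)).not
  have h1 : Qdf χ α β (fun n v _ => ∃ x : Fin 7 → Fin n, (x 0 : ℕ) = 1 ∧
      (x 1 : ℕ) + (x 0 : ℕ) = (v l : ℕ) ∧ (v l : ℕ) * (v l : ℕ) = (x 2 : ℕ) ∧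
      (x 2 : ℕ) * (x 2 : ℕ) = (x 3 : ℕ) ∧ (x 4 : ℕ) + (x 0 : ℕ) = (x 3 : ℕ) ∧
      (x 1 : ℕ) * (x 3 : ℕ) = (x 5 : ℕ) ∧ (x 5 : ℕ) + (x 4 : ℕ) = (x 6 : ℕ)) := by
    refine Qdf.exF (P := fun n v _ x => (x 0 : ℕ) = 1 ∧
      (x 1 : ℕ) + (x 0 : ℕ) = (v l : ℕ) ∧ (v l : ℕ) * (v l : ℕ) = (x 2 : ℕ) ∧
      (x 2 : ℕ) * (x 2 : ℕ) = (x 3 : ℕ) ∧ (x 4 : ℕ) + (x 0 : ℕ) = (x 3 : ℕ) ∧
      (x 1 : ℕ) * (x 3 : ℕ) = (x 5 : ℕ) ∧ (x 5 : ℕ) + (x 4 : ℕ) = (x 6 : ℕ)) ?_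
    exact (q_one (Sum.inr 0)).and ((q_add (Sum.inr 1) (Sum.inr 0) (Sum.inl l)).and
      ((q_mul (Sum.inl l) (Sum.inl l) (Sum.inr 2)).and
      ((q_mul (Sum.inr 2) (Sum.inr 2) (Sum.inr 3)).and
      ((q_add (Sum.inr 4) (Sum.inr 0) (Sum.inr 3)).and
      ((q_mul (Sum.inr 1) (Sum.inr 3) (Sum.inr 5)).and
      (q_add (Sum.inr 5) (Sum.inr 4) (Sum.inr 6)))))))
  refine (h2.and ((q_zero l).or h1)).congr (fun n v V => ?_)
  have hv := (v l).is_lt
  obtain ⟨L, hL⟩ : ∃ L : ℕ, L = (v l : ℕ) := ⟨_, rfl⟩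
  rw [← hL] at hv ⊢
  constructor
  · rintro ⟨hn, h⟩
    refine ⟨⟨![⟨0, by omega⟩, ⟨1, by omega⟩], fun he => ?_⟩, ?_⟩
    · have := congrArg Fin.val he
      simp at this
    · by_cases h0 : L = 0
      · exact Or.inl h0
      right
      have h4 := pow5 hn (by omega) h
      have h24 : L ^ 2 ≤ L ^ 4 := Nat.pow_le_pow_right (by omega) (by norm_num)
      have e5 : (L - 1) * L ^ 4 + L ^ 4 = L ^ 5 := by
        obtain ⟨k, rfl⟩ : ∃ k, L = k + 1 := ⟨L - 1, by omega⟩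
        simp only [Nat.add_sub_cancel]
        ring
      have h41 : 1 ≤ L ^ 4 := Nat.one_le_pow _ _ (by omega)
      refine ⟨![⟨1, by omega⟩, ⟨L - 1, by omega⟩, ⟨L ^ 2, by omega⟩, ⟨L ^ 4, h4⟩,
        ⟨L ^ 4 - 1, by omega⟩, ⟨(L - 1) * L ^ 4, by omega⟩,
        ⟨(L - 1) * L ^ 4 + (L ^ 4 - 1), by omega⟩], ?_, ?_, ?_, ?_, ?_, ?_, ?_⟩
      · simp
      · simp
        omega
      · simp
        ring
      · simp
        ring
      · simp
        omega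
      · simp
      · simp
  · rintro ⟨⟨x, hx⟩, h⟩
    have hn : 2 ≤ n := by
      by_contra hc
      apply hx
      apply Fin.ext
      have h0 := (x 0).is_lt
      have h1 := (x 1).is_lt
      omega
    refine ⟨hn, ?_⟩
    rcases h with h | ⟨x, h0, h1, h2, h3, h4, h5, h6⟩
    · rw [h]
      simp
    · have h6' := (x 6).is_lt
      rw [h0] at h1 h4
      have e3 : (x 3 : ℕ) = L ^ 4 := by
        rw [← h3, ← h2]
        ring
      have e5 : (x 1 : ℕ) * L ^ 4 + L ^ 4 = L ^ 5 := by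
        rw [← h1]
        ring
      rw [e3] at h4 h5
      omega

/-- F2' -/
theorem stmtF2' : StmtF2' := by
  intro S _ ar χ
  have h2 : Qdf χ Empty Empty (fun n _ _ => ∃ x : Fin 2 → Fin n, ¬ x 0 = x 1) :=
    Qdf.exF (P := fun n _ _ x => ¬ x 0 = x 1) (q_eq (Sum.inr 0) (Sum.inr 1)).not
  have h1 : Qdf χ Empty Empty (fun n _ _ => ∃ _x : Fin n, True) :=
    Qdf.ex (P := fun _ _ _ _ => True) (Qdf.const True)
  have h3 : Qdf χ Empty Empty (fun n _ _ => ∀ l : Fin n, (2 ≤ n ∧ (l : ℕ) ^ 5 ≤ n) →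
      Dec χ (iniS n l)) :=
    Qdf.all (P := fun n _ _ l => (2 ≤ n ∧ (l : ℕ) ^ 5 ≤ n) → Dec χ (iniS n l))
      ((q_pow5 (Sum.inr ())).imp (q_decIni (Sum.inr ())))
  refine (((h1.and h2.not).and (Qdf.const (1 ∈ TT χ))).or (h2.and h3)).congr (fun n v V => ?_)
  have hc2 : (∃ x : Fin 2 → Fin n, ¬ x 0 = x 1) ↔ 2 ≤ n := by
    constructor
    · rintro ⟨x, hx⟩
      by_contra hc
      apply hx
      apply Fin.ext
      have h0 := (x 0).is_lt
      have h1 := (x 1).is_lt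
      omega
    · intro hn
      refine ⟨![⟨0, by omega⟩, ⟨1, by omega⟩], fun he => ?_⟩
      have := congrArg Fin.val he
      simp at this
  rw [hc2]
  constructor
  · intro h
    have hn1 := h.1
    rcases Nat.lt_or_ge n 2 with hn | hn
    · left
      have : n = 1 := by omega
      subst this
      exact ⟨⟨⟨0, trivial⟩, by omega⟩, h⟩
    · right
      exact ⟨hn, fun l hl => h.2 l (le_sr hl.2)⟩
  · rintro (⟨⟨⟨x, _⟩, hn⟩, h⟩ | ⟨hn, h⟩)
    · have hx := x.is_lt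
      have : n = 1 := by omega
      rw [this]
      exact h
    · refine ⟨by omega, fun l hl => ?_⟩
      have h5 : l ^ 5 ≤ n := (Nat.pow_le_pow_left hl 5).trans (sr_pow n)
      have hln : l < n := by
        rcases Nat.eq_zero_or_pos l with h0 | h0
        · omega
        · exact (Nat.le_self_pow (by norm_num) l).trans_lt (pow5 hn h0 h5)
      exact h ⟨l, hln⟩ ⟨hn, h5⟩

end Pool.Agent.Helper38.QD
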